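import Mathlib
import Pool.Agent.Helper4.FSS.Defs

/-!
MP_0f943d_al, block FSS-V: membership in Thompson's group V, the code form and the uniform depth
form, closure under multiplication and inverse.
-/

set_option autoImplicit false

namespace Pool.Helper4.FSS

open Set

theorem prefix_of_append_eq : ∀ (u w : List Bool) (ξ η : Stream' Bool),
    u.length ≤ w.length → w ++ₛ η = u ++ₛ ξ → ∃ t : List Bool, w = u ++ t ∧ ξ = t ++ₛ η
  | [], w, ξ, η, _, h => ⟨w, rfl, by simpa using h.symm⟩
  | a :: u, [], ξ, η, hl, h => by simp at hl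
  | a :: u, b :: w, ξ, η, hl, h => by
      rw [Stream'.cons_append_stream, Stream'.cons_append_stream] at h
      have h1 := congrArg Stream'.head h
      have h2 := congrArg Stream'.tail h
      simp only [Stream'.head_cons, Stream'.tail_cons] at h1 h2
      obtain ⟨t, ht, ht2⟩ := prefix_of_append_eq u w ξ η (by simpa using hl) h2
      exact ⟨t, by rw [h1, ht]; rfl, ht2⟩

/-- N = max of the lengths of the `u i`; a word of length N has some `u i` as a prefix. -/
theorem inV'_of_inV {f : Equiv.Perm (Stream' Bool)} (h : InV f) : InV' f := by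
  obtain ⟨k, u, v, hu, hv, hf⟩ := h
  refine ⟨Finset.univ.sup (fun i => (u i).length), fun w hw => ?_⟩
  obtain ⟨i, ⟨ξ, hξ⟩, -⟩ := hu (w ++ₛ Stream'.const false)
  have hl : (u i).length ≤ w.length := by
    rw [hw]
    exact Finset.le_sup (f := fun i => (u i).length) (Finset.mem_univ i)
  obtain ⟨t, ht, -⟩ := prefix_of_append_eq (u i) w ξ _ hl hξ
  refine ⟨v i ++ t, fun ξ => ?_⟩
  rw [ht, Stream'.append_append_stream, hf, Stream'.append_append_stream]

/-- the words of length `N` form a code -/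
theorem isCode_words (N : ℕ) (e : Fin (2 ^ N) ≃ (Fin N → Bool)) :
    IsCode (fun i => List.ofFn (e i)) := by
  intro η
  refine ⟨e.symm (fun j => η.get j), ⟨η.drop N, ?_⟩, ?_⟩
  · have h1 : List.ofFn (e (e.symm fun j : Fin N => η.get j)) = η.take N := by
      rw [Equiv.apply_symm_apply]
      apply List.ext_getElem
      · simp
      · intro n h1 h2
        simp
    show η = List.ofFn (e (e.symm fun j : Fin N => η.get j)) ++ₛ η.drop N
    rw [h1, Stream'.append_take_drop]
  · rintro i ⟨ξ, hξ⟩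
    rw [Equiv.eq_symm_apply]
    funext j
    have h1 : j.1 < (List.ofFn (e i)).length := by simp
    show e i j = η.get j
    rw [hξ, Stream'.get_append_left _ _ _ h1]
    simp

/-- enumerate the words `w` of length N, `v w` the given word; `v` is a complete prefix code
because `f` is bijective. -/
theorem inV_of_inV' {f : Equiv.Perm (Stream' Bool)} (h : InV' f) : InV f := by
  obtain ⟨N, hN⟩ := h
  choose v hv using hN
  have hc : Fintype.card (Fin N → Bool) = 2 ^ N := by simp
  let e : Fin (2 ^ N) ≃ (Fin N → Bool) := (Fintype.equivFinOfCardEq hc).symm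
  have hu := isCode_words N e
  have hlen : ∀ i, (List.ofFn (e i)).length = N := fun i => by simp
  refine ⟨2 ^ N, fun i => List.ofFn (e i), fun i => v (List.ofFn (e i)) (hlen i), hu, ?_,
    fun i ξ => hv _ (hlen i) ξ⟩
  intro η
  obtain ⟨i, ⟨ξ, hξ⟩, huniq⟩ := hu (f.symm η)
  refine ⟨i, ⟨ξ, ?_⟩, ?_⟩
  · show η = v (List.ofFn (e i)) (hlen i) ++ₛ ξ
    rw [← hv _ (hlen i) ξ]
    have h2 : f.symm η = List.ofFn (e i) ++ₛ ξ := hξ
    rw [← h2, Equiv.apply_symm_apply]
  · rintro j ⟨ξ', hξ'⟩
    refine huniq j ⟨ξ', ?_⟩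
    show f.symm η = List.ofFn (e j) ++ₛ ξ'
    rw [Equiv.symm_apply_eq, hv _ (hlen j) ξ']
    exact hξ'

theorem inV'_one : InV' (1 : Equiv.Perm (Stream' Bool)) :=
  ⟨0, fun w _ => ⟨w, fun _ => rfl⟩⟩

theorem inV'_mul {f g : Equiv.Perm (Stream' Bool)} (hf : InV' f) (hg : InV' g) :
    InV' (f * g : Equiv.Perm (Stream' Bool)) := by
  obtain ⟨M, hM⟩ := hf
  obtain ⟨N, hN⟩ := hg
  refine ⟨N + M, fun w hw => ?_⟩
  obtain ⟨v, hv⟩ := hN (w.take N) (by rw [List.length_take, hw]; omega)
  obtain ⟨z, hz⟩ := hM ((v ++ w.drop N).take M) (by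
    rw [List.length_take, List.length_append, List.length_drop, hw]; omega)
  refine ⟨z ++ (v ++ w.drop N).drop M, fun ξ => ?_⟩
  have h1 : w ++ₛ ξ = w.take N ++ₛ (w.drop N ++ₛ ξ) := by
    rw [← Stream'.append_append_stream, List.take_append_drop]
  have h2 : (v ++ w.drop N) ++ₛ ξ
      = (v ++ w.drop N).take M ++ₛ ((v ++ w.drop N).drop M ++ₛ ξ) := by
    rw [← Stream'.append_append_stream, List.take_append_drop]
  rw [Equiv.Perm.mul_apply, h1, hv, ← Stream'.append_append_stream, h2, hz,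
    Stream'.append_append_stream]

theorem inV'_inv {f : Equiv.Perm (Stream' Bool)} (hf : InV' f) :
    InV' (f⁻¹ : Equiv.Perm (Stream' Bool)) := by
  obtain ⟨k, u, v, hu, hv, h⟩ := inV_of_inV' hf
  refine inV'_of_inV ⟨k, v, u, hv, hu, fun i ξ => ?_⟩
  rw [Equiv.Perm.inv_eq_iff_eq]
  exact (h i ξ).symm

end Pool.Helper4.FSS
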